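import Mathlib

namespace Pool.Agent.Results.MP_b61ad0_an.MatchedTops

open Finset

/-- The ball of radius `r` about the vertex `v` in the path with vertices `0, ..., m`. -/
def ball (m v r : ℕ) : Finset ℕ := (range (m + 1)).filter (fun j => j ≤ v + r ∧ v ≤ j + r)

/-- The average of `g` over the ball of radius `r` about `v`. -/
noncomputable def average (m : ℕ) (g : ℕ → ℝ) (v r : ℕ) : ℝ :=
  (∑ j ∈ ball m v r, g j) / ((ball m v r).card : ℝ)

/-- The supremum of the averages of `g` over the balls about `v`. -/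
noncomputable def supAverage (m : ℕ) (g : ℕ → ℝ) (v : ℕ) : ℝ := ⨆ r : ℕ, average m g v r

/-- The total variation on the path with vertices `0, ..., m`. -/
noncomputable def variation (m : ℕ) (g : ℕ → ℝ) : ℝ := ∑ i ∈ range m, |g (i + 1) - g i|

theorem mem_ball {m v r j : ℕ} : j ∈ ball m v r ↔ j ≤ m ∧ j ≤ v + r ∧ v ≤ j + r := by
  simp only [ball, mem_filter, mem_range]
  omega

theorem card_ball_le (m v r : ℕ) : (ball m v r).card ≤ m + 1 := by
  unfold ball
  exact (card_filter_le _ _).trans (by simp)

theorem self_mem_ball {m v : ℕ} (r : ℕ) (hv : v ≤ m) : v ∈ ball m v r := by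
  rw [mem_ball]; omega

theorem mean_removed (g : ℕ → ℝ) (S T : Finset ℕ) (hTS : T ⊆ S) (hT : T.Nonempty) (α : ℝ)
    (hα : α = (∑ j ∈ S, g j) / (S.card : ℝ)) (h : ∀ j ∈ S \ T, g j ≤ α) :
    α ≤ (∑ j ∈ T, g j) / (T.card : ℝ) := by
  have hTc : (0 : ℝ) < (T.card : ℝ) := by exact_mod_cast hT.card_pos
  have hSc : (0 : ℝ) < (S.card : ℝ) := by exact_mod_cast (hT.mono hTS).card_pos
  have hsum : ∑ j ∈ S, g j = α * S.card := by
    rw [hα]; field_simp
  have hsplit : ∑ j ∈ S \ T, g j + ∑ j ∈ T, g j = ∑ j ∈ S, g j := sum_sdiff hTS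
  have hcard : ((S \ T).card : ℝ) + T.card = S.card := by
    exact_mod_cast card_sdiff_add_card_eq_card hTS
  have hle : ∑ j ∈ S \ T, g j ≤ ((S \ T).card : ℝ) * α := by
    have := sum_le_card_nsmul (S \ T) g α h
    simpa [nsmul_eq_mul] using this
  have hsplit2 : α * (S.card : ℝ) = ((S \ T).card : ℝ) * α + α * (T.card : ℝ) := by
    rw [← hcard]; ring
  rw [le_div_iff₀ hTc]
  linarith

theorem mean_added (g : ℕ → ℝ) (S T : Finset ℕ) (hST : S ⊆ T) (hS : S.Nonempty) (α : ℝ)
    (hα : α = (∑ j ∈ S, g j) / (S.card : ℝ)) (h : ∀ j ∈ T \ S, α ≤ g j) :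
    α ≤ (∑ j ∈ T, g j) / (T.card : ℝ) := by
  have hSc : (0 : ℝ) < (S.card : ℝ) := by exact_mod_cast hS.card_pos
  have hTc : (0 : ℝ) < (T.card : ℝ) := by exact_mod_cast (hS.mono hST).card_pos
  have hsum : ∑ j ∈ S, g j = α * S.card := by
    rw [hα]; field_simp
  have hsplit : ∑ j ∈ T \ S, g j + ∑ j ∈ S, g j = ∑ j ∈ T, g j := sum_sdiff hST
  have hcard : ((T \ S).card : ℝ) + S.card = T.card := by
    exact_mod_cast card_sdiff_add_card_eq_card hST
  have hle : ((T \ S).card : ℝ) * α ≤ ∑ j ∈ T \ S, g j := by
    have := card_nsmul_le_sum (T \ S) g α h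
    simpa [nsmul_eq_mul] using this
  have hsplit2 : α * (T.card : ℝ) = ((T \ S).card : ℝ) * α + α * (S.card : ℝ) := by
    rw [← hcard]; ring
  rw [le_div_iff₀ hTc]
  linarith

theorem mean_lt (g : ℕ → ℝ) (S : Finset ℕ) (hS : S.Nonempty) (α : ℝ)
    (h : ∀ j ∈ S, g j < α) : (∑ j ∈ S, g j) / (S.card : ℝ) < α := by
  have hSc : (0 : ℝ) < (S.card : ℝ) := by exact_mod_cast hS.card_pos
  rw [div_lt_iff₀ hSc]
  have := sum_lt_sum_of_nonempty hS h
  simpa [nsmul_eq_mul, mul_comm] using this

theorem mean_le (g : ℕ → ℝ) (S : Finset ℕ) (hS : S.Nonempty) (c : ℝ)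
    (h : ∀ j ∈ S, g j ≤ c) : (∑ j ∈ S, g j) / (S.card : ℝ) ≤ c := by
  have hSc : (0 : ℝ) < (S.card : ℝ) := by exact_mod_cast hS.card_pos
  rw [div_le_iff₀ hSc]
  have := sum_le_card_nsmul S g c h
  simpa [nsmul_eq_mul, mul_comm] using this

theorem mean_lower (g : ℕ → ℝ) (S : Finset ℕ) (c : ℝ) (N : ℝ) (j₀ : ℕ) (hj : j₀ ∈ S)
    (hN : (S.card : ℝ) ≤ N) (h : ∀ j ∈ S, c ≤ g j) :
    c + (g j₀ - c) / N ≤ (∑ j ∈ S, g j) / (S.card : ℝ) := by
  have hSc : (0 : ℝ) < (S.card : ℝ) := by exact_mod_cast (card_pos.2 ⟨j₀, hj⟩)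
  have hsum : ∑ j ∈ S, (g j - c) = ∑ j ∈ S, g j - S.card * c := by
    rw [sum_sub_distrib]; simp
  have hge : g j₀ - c ≤ ∑ j ∈ S, (g j - c) :=
    single_le_sum (f := fun j => g j - c) (fun j hj' => sub_nonneg.2 (h j hj')) hj
  have h1 : (g j₀ - c) / N ≤ (g j₀ - c) / S.card :=
    div_le_div_of_nonneg_left (sub_nonneg.2 (h j₀ hj)) hSc hN
  have h2 : c + (g j₀ - c) / S.card ≤ (∑ j ∈ S, g j) / (S.card : ℝ) := by
    rw [le_div_iff₀ hSc, add_mul, div_mul_cancel₀ _ hSc.ne']
    linarith
  linarith

theorem average_le {m : ℕ} {g : ℕ → ℝ} {v : ℕ} (r : ℕ) (hv : v ≤ m) {c : ℝ}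
    (h : ∀ j ≤ m, g j ≤ c) : average m g v r ≤ c :=
  mean_le g _ ⟨v, self_mem_ball r hv⟩ c (fun j hj => h j (mem_ball.1 hj).1)

theorem bdd {m : ℕ} (g : ℕ → ℝ) {v : ℕ} (hv : v ≤ m) :
    BddAbove (Set.range (fun r => average m g v r)) := by
  refine ⟨∑ j ∈ range (m + 1), |g j|, ?_⟩
  rintro _ ⟨r, rfl⟩
  refine average_le r hv (fun j hj => ?_)
  exact (le_abs_self _).trans
    (single_le_sum (f := fun j => |g j|) (fun i _ => abs_nonneg _) (mem_range.2 (by omega)))

theorem average_le_sup {m : ℕ} (g : ℕ → ℝ) {v : ℕ} (r : ℕ) (hv : v ≤ m) :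
    average m g v r ≤ supAverage m g v := le_ciSup (bdd g hv) r

theorem sup_le {m : ℕ} {g : ℕ → ℝ} {v : ℕ} {c : ℝ} (h : ∀ r, average m g v r ≤ c) :
    supAverage m g v ≤ c := ciSup_le h

theorem self_le_sup {m : ℕ} (g : ℕ → ℝ) {v : ℕ} (hv : v ≤ m) : g v ≤ supAverage m g v := by
  have h := average_le_sup g 0 hv
  have hb : ball m v 0 = {v} := by
    ext j; rw [mem_ball, mem_singleton]; omega
  unfold average at h
  rw [hb] at h
  simpa using h

/-- If `w` is a record of `g` from the left, then `supAverage` at `w` is a record too. -/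
theorem record_left {m : ℕ} (g : ℕ → ℝ) {u w : ℕ} (hw : w ≤ m) (huw : u ≤ w)
    (hrec : ∀ j ≤ w, g j ≤ g w) : supAverage m g u ≤ supAverage m g w := by
  refine sup_le (fun r => ?_)
  by_contra hcon
  push Not at hcon
  set α := average m g u r with hα
  have hgw : g w < α := (self_le_sup g hw).trans_lt hcon
  have hlt : ∀ j ≤ w, g j < α := fun j hj => (hrec j hj).trans_lt hgw
  by_cases hr : w ≤ u + r
  · have key : α ≤ average m g w (u + r - w) := by
      refine mean_removed g (ball m u r) (ball m w (u + r - w)) ?_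
        ⟨w, self_mem_ball _ hw⟩ α hα ?_
      · intro j hj
        rw [mem_ball] at hj ⊢
        omega
      · intro j hj
        rw [mem_sdiff, mem_ball, mem_ball] at hj
        exact (hlt j (by omega)).le
    exact absurd (key.trans (average_le_sup g _ hw)) (not_le.2 hcon)
  · have : average m g u r < α := by
      refine mean_lt g _ ⟨u, self_mem_ball r (huw.trans hw)⟩ α (fun j hj => hlt j ?_)
      rw [mem_ball] at hj
      omega
    exact absurd this (lt_irrefl _)

/-- Moving to the left, when the values at least `α` form an initial segment. -/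
theorem move_left {m : ℕ} (g : ℕ → ℝ) {k u v r : ℕ} (hv : v ≤ m) (hku : k ≤ u) (huv : u ≤ v)
    (hseg : ∀ i j, k ≤ i → i ≤ j → j ≤ v + r → j ≤ m → g i < average m g v r →
      g j < average m g v r) :
    average m g v r ≤ supAverage m g u := by
  have hu : u ≤ m := huv.trans hv
  by_cases hgu : average m g v r ≤ g u
  · exact hgu.trans (self_le_sup g hu)
  push Not at hgu
  have hlt : ∀ j, u ≤ j → j ≤ v + r → j ≤ m → g j < average m g v r :=
    fun j h1 h2 h3 => hseg u j hku h1 h2 h3 hgu
  by_cases hr : v ≤ u + r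
  · have key : average m g v r ≤ average m g u (u + r - v) := by
      refine mean_removed g (ball m v r) (ball m u (u + r - v)) ?_
        ⟨u, self_mem_ball _ hu⟩ _ rfl ?_
      · intro j hj
        rw [mem_ball] at hj ⊢
        omega
      · intro j hj
        rw [mem_sdiff, mem_ball, mem_ball] at hj
        exact (hlt j (by omega) (by omega) (by omega)).le
    exact key.trans (average_le_sup g _ hu)
  · have : average m g v r < average m g v r := by
      refine mean_lt g _ ⟨v, self_mem_ball r hv⟩ _ (fun j hj => ?_)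
      rw [mem_ball] at hj
      exact hlt j (by omega) (by omega) (by omega)
    exact absurd this (lt_irrefl _)

/-- Moving to the right, when all values to the right of the ball are large. -/
theorem move_right {m : ℕ} (g : ℕ → ℝ) {v w r : ℕ} (hw : w ≤ m) (hvw : v ≤ w)
    (h : ∀ j, v + r < j → j ≤ m → average m g v r ≤ g j) :
    average m g v r ≤ supAverage m g w := by
  have key : average m g v r ≤ average m g w (r + (w - v)) := by
    refine mean_added g (ball m v r) (ball m w (r + (w - v))) ?_
      ⟨v, self_mem_ball _ (hvw.trans hw)⟩ _ rfl ?_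
    · intro j hj
      rw [mem_ball] at hj ⊢
      omega
    · intro j hj
      rw [mem_sdiff, mem_ball, mem_ball] at hj
      exact h j (by omega) (by omega)
  exact key.trans (average_le_sup g _ hw)

/-- `g` is nondecreasing on `[0, k]`, nonincreasing on `[k, l]`, nondecreasing on `[l, m]`. -/
def UpDownUp (m k l : ℕ) (g : ℕ → ℝ) : Prop :=
  k ≤ l ∧ l ≤ m ∧ (∀ i j, i ≤ j → j ≤ k → g i ≤ g j) ∧
    (∀ i j, k ≤ i → i ≤ j → j ≤ l → g j ≤ g i) ∧
    (∀ i j, l ≤ i → i ≤ j → j ≤ m → g i ≤ g j)

/-- The alternative for a ball about a vertex of `[k, m]`. -/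
theorem alternative {m k l : ℕ} {g : ℕ → ℝ} (hg : UpDownUp m k l g) (α : ℝ) (b : ℕ) :
    (∀ j, b < j → j ≤ m → α ≤ g j) ∨
      (∀ i j, k ≤ i → i ≤ j → j ≤ b → j ≤ m → g i < α → g j < α) := by
  obtain ⟨hkl, hlm, h1, h2, h3⟩ := hg
  by_cases hb : l ≤ b ∧ (m ≤ b ∨ α ≤ g b)
  · left
    intro j hj hjm
    rcases hb.2 with h4 | h4
    · omega
    · exact h4.trans (h3 b j hb.1 hj.le hjm)
  · right
    intro i j hki hij hjb hjm hi
    by_cases hjl : j ≤ l
    · exact (h2 i j hki hij hjl).trans_lt hi
    · have hlb : l ≤ b := by omega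
      have hb2 : ¬ (m ≤ b ∨ α ≤ g b) := fun h4 => hb ⟨hlb, h4⟩
      push Not at hb2
      exact (h3 j b (by omega) hjb hb2.1.le).trans_lt hb2.2

/-- Quasiconvexity of `supAverage` on `[k, m]`. -/
theorem quasiconvex {m k l : ℕ} {g : ℕ → ℝ} (hg : UpDownUp m k l g) {u v w : ℕ}
    (hku : k ≤ u) (huv : u ≤ v) (hvw : v ≤ w) (hw : w ≤ m) :
    supAverage m g v ≤ max (supAverage m g u) (supAverage m g w) := by
  refine sup_le (fun r => ?_)
  rcases alternative hg (average m g v r) (v + r) with h | h
  · exact (move_right g hw hvw h).trans (le_max_right _ _)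
  · exact (move_left g (hvw.trans hw) hku huv h).trans (le_max_left _ _)

/-! ### Reflection -/

theorem average_reflect {m : ℕ} (g : ℕ → ℝ) {v : ℕ} (hv : v ≤ m) (r : ℕ) :
    average m (fun j => g (m - j)) v r = average m g (m - v) r := by
  have hinj : Set.InjOn (fun j => m - j) (ball m v r : Set ℕ) := by
    intro i hi j hj hij
    rw [mem_coe, mem_ball] at hi hj
    simp only at hij
    omega
  have himage : (ball m v r).image (fun j => m - j) = ball m (m - v) r := by
    ext j
    rw [mem_image]
    constructor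
    · rintro ⟨i, hi, rfl⟩
      rw [mem_ball] at hi ⊢
      omega
    · intro hj
      refine ⟨m - j, ?_, ?_⟩
      · rw [mem_ball] at hj ⊢
        omega
      · rw [mem_ball] at hj
        omega
  unfold average
  rw [← himage, sum_image hinj, card_image_of_injOn hinj]

theorem supAverage_reflect {m : ℕ} (g : ℕ → ℝ) {v : ℕ} (hv : v ≤ m) :
    supAverage m (fun j => g (m - j)) v = supAverage m g (m - v) := by
  unfold supAverage
  exact iSup_congr (fun r => average_reflect g hv r)

theorem variation_reflect (m : ℕ) (g : ℕ → ℝ) :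
    variation m (fun j => g (m - j)) = variation m g := by
  unfold variation
  rw [← sum_range_reflect]
  refine sum_congr rfl (fun i hi => ?_)
  rw [mem_range] at hi
  change |g (m - (m - 1 - i + 1)) - g (m - (m - 1 - i))| = _
  rw [show m - (m - 1 - i + 1) = i by omega, show m - (m - 1 - i) = i + 1 by omega,
    abs_sub_comm]

theorem variation_congr {m : ℕ} {g h : ℕ → ℝ} (hgh : ∀ i ≤ m, g i = h i) :
    variation m g = variation m h := by
  unfold variation
  refine sum_congr rfl (fun i hi => ?_)
  rw [mem_range] at hi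
  rw [hgh i (by omega), hgh (i + 1) (by omega)]

/-- `g` is nonincreasing on `[0, k]`, nondecreasing on `[k, l]`, nonincreasing on `[l, m]`. -/
def DownUpDown (m k l : ℕ) (g : ℕ → ℝ) : Prop :=
  k ≤ l ∧ l ≤ m ∧ (∀ i j, i ≤ j → j ≤ k → g j ≤ g i) ∧
    (∀ i j, k ≤ i → i ≤ j → j ≤ l → g i ≤ g j) ∧
    (∀ i j, l ≤ i → i ≤ j → j ≤ m → g j ≤ g i)

theorem DownUpDown.reflect {m k l : ℕ} {g : ℕ → ℝ} (h : DownUpDown m k l g) :
    UpDownUp m (m - l) (m - k) (fun j => g (m - j)) := by
  obtain ⟨hkl, hlm, h1, h2, h3⟩ := h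
  refine ⟨by omega, by omega, ?_, ?_, ?_⟩
  · intro i j hij hj
    exact h3 (m - j) (m - i) (by omega) (by omega) (by omega)
  · intro i j hi hij hj
    exact h2 (m - j) (m - i) (by omega) (by omega) (by omega)
  · intro i j hi hij hj
    exact h1 (m - j) (m - i) (by omega) (by omega)

/-- The centered Hardy-Littlewood maximal function of `f` on the path `0, ..., m`. -/
noncomputable def maximal (m : ℕ) (f : ℕ → ℝ) (v : ℕ) : ℝ := supAverage m (fun j => |f j|) v

/-- `g` changes its monotonicity at most twice on `0, ..., m`. -/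
def AtMostTwoChanges (m : ℕ) (g : ℕ → ℝ) : Prop :=
  ∃ k l, UpDownUp m k l g ∨ DownUpDown m k l g

theorem variation_abs_le (m : ℕ) (f : ℕ → ℝ) : variation m (fun j => |f j|) ≤ variation m f := by
  unfold variation
  exact sum_le_sum (fun i _ => abs_abs_sub_abs_le _ _)

/-! ### Alternating sums -/

/-- Leave out the index `i`. -/
def skip (i t : ℕ) : ℕ := if t < i then t else t + 1

theorem skip_lt {i t : ℕ} (h : t < i) : skip i t = t := if_pos h

theorem skip_ge {i t : ℕ} (h : i ≤ t) : skip i t = t + 1 := if_neg (by omega)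

theorem sum_skip (f : ℕ → ℝ) (i s : ℕ) (hi : i ≤ s) :
    ∑ t ∈ range s, f (skip i t) = ∑ t ∈ range (s + 1), f t - f i := by
  induction s with
  | zero =>
    have : i = 0 := by omega
    subst this
    simp
  | succ s ih =>
    by_cases h : i ≤ s
    · rw [sum_range_succ, ih h, sum_range_succ _ (s + 1), skip_ge h]
      ring
    · have hi' : i = s + 1 := by omega
      subst hi'
      rw [sum_range_succ _ (s + 1)]
      have : ∀ t ∈ range (s + 1), f (skip (s + 1) t) = f t := by
        intro t ht
        rw [mem_range] at ht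
        rw [skip_lt ht]
      rw [sum_congr rfl this]
      ring

/-- The alternating sum with tops `G 1, ..., G s` and lows `L 0, ..., L s`. -/
noncomputable def Phi (s : ℕ) (G L : ℕ → ℝ) : ℝ :=
  ∑ i ∈ range s, (2 * G (i + 1) - L i - L (i + 1))

theorem Phi_succ (s : ℕ) (G L : ℕ → ℝ) :
    Phi (s + 1) G L = Phi s G L + (2 * G (s + 1) - L s - L (s + 1)) := by
  unfold Phi
  rw [sum_range_succ]

theorem Phi_eq (s : ℕ) (G L : ℕ → ℝ) : Phi s G L =
    2 * ∑ i ∈ range s, G (i + 1) - ∑ i ∈ range s, L i - ∑ i ∈ range s, L (i + 1) := by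
  unfold Phi
  rw [sum_sub_distrib, sum_sub_distrib, mul_sum]

theorem Phi_congr {s : ℕ} {G L G' L' : ℕ → ℝ} (h1 : ∀ i < s, G (i + 1) = G' (i + 1))
    (h2 : ∀ i ≤ s, L i = L' i) : Phi s G L = Phi s G' L' := by
  unfold Phi
  refine sum_congr rfl (fun i hi => ?_)
  rw [mem_range] at hi
  rw [h1 i hi, h2 i hi.le, h2 (i + 1) hi]

theorem Phi_mono {s : ℕ} {G L G' : ℕ → ℝ} (h1 : ∀ i < s, G (i + 1) ≤ G' (i + 1)) :
    Phi s G L ≤ Phi s G' L := by
  unfold Phi
  refine sum_le_sum (fun i hi => ?_)
  rw [mem_range] at hi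
  have := h1 i hi
  linarith

theorem sum_tops (s i : ℕ) (hi : i ≤ s) (G : ℕ → ℝ) :
    ∑ t ∈ range s, G (skip (i + 1) (t + 1)) = ∑ t ∈ range (s + 1), G (t + 1) - G (i + 1) := by
  have h : ∀ t ∈ range s, G (skip (i + 1) (t + 1)) = (fun t => G (t + 1)) (skip i t) := by
    intro t _
    by_cases ht : t < i
    · simp only [skip_lt ht, skip_lt (show t + 1 < i + 1 by omega)]
    · simp only [skip_ge (show i ≤ t by omega), skip_ge (show i + 1 ≤ t + 1 by omega)]
  rw [sum_congr rfl h, sum_skip (fun t => G (t + 1)) i s hi]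

theorem Phi_inner (s i j : ℕ) (hi : i ≤ s) (hj1 : 1 ≤ j) (hj2 : j ≤ s) (G L : ℕ → ℝ) :
    Phi (s + 1) G L = Phi s (fun t => G (skip (i + 1) t)) (fun t => L (skip j t)) +
      (2 * G (i + 1) - L j - L j) := by
  obtain ⟨j', rfl⟩ : ∃ j', j = j' + 1 := ⟨j - 1, by omega⟩
  rw [Phi_eq, Phi_eq, sum_tops s i hi G, sum_skip L (j' + 1) s hj2,
    sum_tops s j' (by omega) L]
  ring

theorem Phi_first (s : ℕ) (G L : ℕ → ℝ) :
    Phi (s + 1) G L = Phi s (fun t => G (skip 1 t)) (fun t => L (skip 0 t)) +
      (2 * G 1 - L 0 - L 1) := by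
  rw [Phi_eq, Phi_eq, sum_tops s 0 (Nat.zero_le s) G, sum_skip L 0 s (Nat.zero_le s)]
  have h : ∀ t ∈ range s, L (skip 0 (t + 1)) = (fun t => L (t + 1)) (skip 0 t) := by
    intro t _
    simp only [skip_ge (Nat.zero_le _)]
  rw [sum_congr rfl h, sum_skip (fun t => L (t + 1)) 0 s (Nat.zero_le s)]
  simp only [zero_add]
  ring

theorem Phi_last (s : ℕ) (G L : ℕ → ℝ) :
    Phi (s + 1) G L = Phi s (fun t => G (skip (s + 1) t)) (fun t => L (skip (s + 1) t)) +
      (2 * G (s + 1) - L s - L (s + 1)) := by
  rw [Phi_succ]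
  congr 1
  refine Phi_congr (fun i hi => ?_) (fun i hi => ?_)
  · rw [skip_lt (by omega)]
  · rw [skip_lt (by omega)]

/-- A lower bound for the maximal function in a gap. -/
theorem gap_bound {m : ℕ} (g : ℕ → ℝ) {a p b : ℕ} (hap : a ≤ p) (hpb : p ≤ b) (hbm : b ≤ m)
    {c F : ℝ} (hc : ∀ v, a ≤ v → v ≤ b → c ≤ g v) (ha : F ≤ g a ∨ a = 0)
    (hb : F ≤ g b ∨ b = m) (hab : F ≤ g a ∨ F ≤ g b) :
    c + (F - c) / ((m : ℝ) + 1) ≤ supAverage m g p := by
  have hm0 : (0 : ℝ) < (m : ℝ) + 1 := by positivity
  have hpm : p ≤ m := hpb.trans hbm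
  have hcard : ∀ v r, ((ball m v r).card : ℝ) ≤ (m : ℝ) + 1 := fun v r => by
    exact_mod_cast card_ball_le m v r
  by_cases h1 : F ≤ g a ∧ (p - a ≤ b - p ∨ b = m)
  · have hmem : a ∈ ball m p (p - a) := by rw [mem_ball]; omega
    have h2 := (mean_lower g (ball m p (p - a)) c ((m : ℝ) + 1) a hmem (hcard p _) (by
      intro j hj
      rw [mem_ball] at hj
      exact hc j (by omega) (by omega))).trans (average_le_sup g (p - a) hpm)
    have h3 : (F - c) / ((m : ℝ) + 1) ≤ (g a - c) / ((m : ℝ) + 1) :=
      div_le_div_of_nonneg_right (by linarith [h1.1]) hm0.le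
    linarith
  · have hFb : F ≤ g b := by
      by_contra hcon
      have h4 : b = m := hb.resolve_left hcon
      have h5 : F ≤ g a := hab.resolve_right hcon
      exact h1 ⟨h5, Or.inr h4⟩
    have hside : b - p ≤ p - a ∨ a = 0 := by
      by_contra hcon
      push Not at hcon
      have h5 : F ≤ g a := ha.resolve_right hcon.2
      exact h1 ⟨h5, Or.inl (by omega)⟩
    have hmem : b ∈ ball m p (b - p) := by rw [mem_ball]; omega
    have h2 := (mean_lower g (ball m p (b - p)) c ((m : ℝ) + 1) b hmem (hcard p _) (by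
      intro j hj
      rw [mem_ball] at hj
      exact hc j (by omega) (by omega))).trans (average_le_sup g (b - p) hpm)
    have h3 : (F - c) / ((m : ℝ) + 1) ≤ (g b - c) / ((m : ℝ) + 1) :=
      div_le_div_of_nonneg_right (by linarith) hm0.le
    linarith

/-- The main inequality for alternating sums. -/
theorem main_alternating (m : ℕ) (g : ℕ → ℝ) : ∀ (s : ℕ) (q : ℕ → ℕ) (P M : ℕ → ℝ),
    q 0 = 0 → q (s + 1) = m → (∀ t ≤ s, q t ≤ q (t + 1)) →
    (∀ j ≤ s, ∃ p, q j ≤ p ∧ p ≤ q (j + 1) ∧ supAverage m g p ≤ P j) →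
    (∀ j ≤ s, ∀ v, q j ≤ v → v ≤ q (j + 1) → M j ≤ g v) →
    Phi s (fun t => g (q t)) P ≤ (1 - 1 / ((m : ℝ) + 1)) * Phi s (fun t => g (q t)) M := by
  intro s
  induction s with
  | zero =>
    intro q P M _ _ _ _ _
    simp [Phi]
  | succ s ih =>
    intro q P M hq0 hqm hmono hP hM
    obtain ⟨i, hi, himin⟩ := exists_min_image (range (s + 1)) (fun t => g (q (t + 1)))
      ⟨0, by simp⟩
    rw [mem_range] at hi
    have hF : ∀ t, 1 ≤ t → t ≤ s + 1 → g (q (i + 1)) ≤ g (q t) := by
      intro t h1 h2
      obtain ⟨t', rfl⟩ : ∃ t', t = t' + 1 := ⟨t - 1, by omega⟩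
      exact himin t' (mem_range.2 (by omega))
    have hqle : ∀ t ≤ s + 2, q t ≤ m := by
      intro t ht
      have : ∀ d, d ≤ s + 2 → q (s + 2 - d) ≤ m := by
        intro d
        induction d with
        | zero => intro _; rw [Nat.sub_zero, hqm]
        | succ d ihd =>
          intro hd
          have h1 := hmono (s + 2 - (d + 1)) (by omega)
          rw [show s + 2 - (d + 1) + 1 = s + 2 - d by omega] at h1
          exact h1.trans (ihd (by omega))
      have h2 := this (s + 2 - t) (by omega)
      rwa [show s + 2 - (s + 2 - t) = t by omega] at h2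
    have hK : ∀ j ≤ s + 1, M j + (g (q (i + 1)) - M j) / ((m : ℝ) + 1) ≤ P j := by
      intro j hj
      obtain ⟨p, hp1, hp2, hp3⟩ := hP j hj
      refine (gap_bound g hp1 hp2 (hqle (j + 1) (by omega)) (hM j hj) ?_ ?_ ?_).trans hp3
      · by_cases h : j = 0
        · right; rw [h, hq0]
        · left; exact hF j (by omega) hj
      · by_cases h : j = s + 1
        · right; rw [h]; exact hqm
        · left; exact hF (j + 1) (by omega) (by omega)
      · by_cases h : j = 0
        · right; rw [h]; exact hF 1 le_rfl (by omega)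
        · left; exact hF j (by omega) hj
    -- the sequences after the removal
    have hstep : ∀ j, (j = i ∧ M (i + 1) ≤ M i) ∨ (j = i + 1 ∧ M i ≤ M (i + 1)) →
        Phi s (fun t => g (q (skip (i + 1) t))) (fun t => P (skip j t)) ≤
          (1 - 1 / ((m : ℝ) + 1)) *
            Phi s (fun t => g (q (skip (i + 1) t))) (fun t => M (skip j t)) := by
      intro j hj
      refine ih (fun t => q (skip (i + 1) t)) (fun t => P (skip j t)) (fun t => M (skip j t))
        ?_ ?_ ?_ ?_ ?_
      · simp only [skip_lt (show 0 < i + 1 by omega)]; exact hq0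
      · simp only [skip_ge (show i + 1 ≤ s + 1 by omega)]; exact hqm
      · intro t ht
        rcases lt_trichotomy t i with h | h | h
        · rw [skip_lt (by omega), skip_lt (by omega)]; exact hmono t (by omega)
        · rw [skip_lt (by omega), skip_ge (by omega)]
          exact (hmono t (by omega)).trans (hmono (t + 1) (by omega))
        · rw [skip_ge (by omega), skip_ge (by omega)]; exact hmono (t + 1) (by omega)
      · intro t ht
        rcases lt_trichotomy t i with h | h | h
        · rw [skip_lt (show t < i + 1 by omega), skip_lt (show t + 1 < i + 1 by omega),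
            skip_lt (show t < j by omega)]
          exact hP t (by omega)
        · rw [skip_lt (show t < i + 1 by omega), skip_ge (show i + 1 ≤ t + 1 by omega)]
          rcases hj with ⟨hj, _⟩ | ⟨hj, _⟩
          · rw [skip_ge (show j ≤ t by omega)]
            obtain ⟨p, hp1, hp2, hp3⟩ := hP (t + 1) (by omega)
            exact ⟨p, (hmono t (by omega)).trans hp1, hp2, hp3⟩
          · rw [skip_lt (show t < j by omega)]
            obtain ⟨p, hp1, hp2, hp3⟩ := hP t (by omega)
            exact ⟨p, hp1, hp2.trans (hmono (t + 1) (by omega)), hp3⟩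
        · rw [skip_ge (show i + 1 ≤ t by omega), skip_ge (show i + 1 ≤ t + 1 by omega),
            skip_ge (show j ≤ t by omega)]
          exact hP (t + 1) (by omega)
      · intro t ht
        rcases lt_trichotomy t i with h | h | h
        · rw [skip_lt (show t < i + 1 by omega), skip_lt (show t + 1 < i + 1 by omega),
            skip_lt (show t < j by omega)]
          exact hM t (by omega)
        · rw [skip_lt (show t < i + 1 by omega), skip_ge (show i + 1 ≤ t + 1 by omega)]
          subst h
          intro v hv1 hv2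
          rcases hj with ⟨hj, hjM⟩ | ⟨hj, hjM⟩
          · rw [skip_ge (show j ≤ t by omega)]
            by_cases hv : v ≤ q (t + 1)
            · exact hjM.trans (hM t (by omega) v hv1 hv)
            · exact hM (t + 1) (by omega) v (by omega) hv2
          · rw [skip_lt (show t < j by omega)]
            by_cases hv : v ≤ q (t + 1)
            · exact hM t (by omega) v hv1 hv
            · exact hjM.trans (hM (t + 1) (by omega) v (by omega) hv2)
        · rw [skip_ge (show i + 1 ≤ t by omega), skip_ge (show i + 1 ≤ t + 1 by omega),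
            skip_ge (show j ≤ t by omega)]
          exact hM (t + 1) (by omega)
    have hKi := hK i (by omega)
    have hKi1 := hK (i + 1) (by omega)
    rw [div_eq_mul_one_div] at hKi hKi1
    set δ := 1 / ((m : ℝ) + 1) with hδ
    have hmi : min (M i) (M (i + 1)) = M i ∨ min (M i) (M (i + 1)) = M (i + 1) := by
      exact min_choice _ _
    rcases le_total (M i) (M (i + 1)) with hle | hle
    · have h := hstep (i + 1) (Or.inr ⟨rfl, hle⟩)
      by_cases hs : i = s
      · subst hs
        rw [Phi_last i _ P, Phi_last i _ M]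
        nlinarith
      · rw [Phi_inner s i (i + 1) (by omega) (by omega) (by omega) _ P,
          Phi_inner s i (i + 1) (by omega) (by omega) (by omega) _ M]
        nlinarith
    · have h := hstep i (Or.inl ⟨rfl, hle⟩)
      by_cases hs : i = 0
      · subst hs
        rw [Phi_first s _ P, Phi_first s _ M]
        simp only [zero_add] at h hKi hKi1 ⊢
        nlinarith
      · rw [Phi_inner s i i (by omega) (by omega) (by omega) _ P,
          Phi_inner s i i (by omega) (by omega) (by omega) _ M]
        nlinarith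

/-- The change between two vertices is at most the variation between them. -/
theorem abs_sub_le_sum (g : ℕ → ℝ) (a b : ℕ) (hab : a ≤ b) :
    |g b - g a| ≤ ∑ i ∈ Ico a b, |g (i + 1) - g i| := by
  induction b, hab using Nat.le_induction with
  | base => simp
  | succ b hab ih =>
    rw [sum_Ico_succ_top hab]
    have h : g (b + 1) - g a = (g (b + 1) - g b) + (g b - g a) := by ring
    rw [h]
    exact (abs_add_le _ _).trans (by linarith)

/-- Alternating sums of `g` are at most the variation of `g`. -/
theorem Phi_le_sum (g : ℕ → ℝ) (q a : ℕ → ℕ) : ∀ s : ℕ,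
    (∀ j < s, a j ≤ q (j + 1) ∧ q (j + 1) ≤ a (j + 1)) →
    a 0 ≤ a s ∧ Phi s (fun t => g (q t)) (fun t => g (a t)) ≤
      ∑ i ∈ Ico (a 0) (a s), |g (i + 1) - g i| := by
  intro s
  induction s with
  | zero =>
    intro _
    simp [Phi]
  | succ s ih =>
    intro h
    obtain ⟨h1, h2⟩ := ih (fun j hj => h j (by omega))
    obtain ⟨h3, h4⟩ := h s (by omega)
    refine ⟨h1.trans (h3.trans h4), ?_⟩
    rw [Phi_succ, ← sum_Ico_consecutive _ h1 (h3.trans h4), ← sum_Ico_consecutive _ h3 h4]
    have h5 := (le_abs_self _).trans (abs_sub_le_sum g _ _ h3)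
    have h6 := (neg_abs_le _).trans' (neg_le_neg (abs_sub_le_sum g _ _ h4))
    linarith

theorem Phi_le_variation {m : ℕ} (g : ℕ → ℝ) (q a : ℕ → ℕ) (s : ℕ)
    (h : ∀ j < s, a j ≤ q (j + 1) ∧ q (j + 1) ≤ a (j + 1)) (hs : a s ≤ m) :
    Phi s (fun t => g (q t)) (fun t => g (a t)) ≤ variation m g := by
  obtain ⟨_, h2⟩ := Phi_le_sum g q a s h
  refine h2.trans ?_
  unfold variation
  rw [range_eq_Ico]
  refine sum_le_sum_of_subset_of_nonneg (Ico_subset_Ico (Nat.zero_le _) hs)
    (fun i _ _ => abs_nonneg _)

/-- Every function splits into monotone stretches with genuine turns. -/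
theorem decomposition (h : ℕ → ℝ) (m : ℕ) : ∃ (s : ℕ) (k p : ℕ → ℕ), p 0 = 0 ∧
    p (s + 1) = m ∧ (∀ i ≤ s, p i ≤ k (i + 1) ∧ k (i + 1) ≤ p (i + 1)) ∧
    (∀ i < s, h (p (i + 1)) < h (k (i + 1)) ∧ h (p (i + 1)) < h (k (i + 2))) ∧
    variation m h ≤ Phi (s + 1) (fun t => h (k t)) (fun t => h (p t)) := by
  induction m with
  | zero =>
    refine ⟨0, fun _ => 0, fun _ => 0, rfl, rfl, fun i _ => ⟨le_rfl, le_rfl⟩,
      fun i hi => absurd hi (Nat.not_lt_zero i), ?_⟩
    simp [variation, Phi]
    linarith
  | succ m ih =>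
    obtain ⟨s, k, p, hp0, hpm, hint, hstrict, hvar⟩ := ih
    have hvs : variation (m + 1) h = variation m h + |h (m + 1) - h m| := by
      unfold variation
      rw [sum_range_succ]
    rw [Phi_succ] at hvar
    rw [hpm] at hvar
    obtain ⟨hs1, hs2⟩ := hint s le_rfl
    by_cases h1 : h (m + 1) ≤ h m
    · -- the last stretch goes on downwards
      refine ⟨s, k, Function.update p (s + 1) (m + 1), ?_, ?_, ?_, ?_, ?_⟩
      · rw [Function.update_of_ne (by omega)]; exact hp0
      · rw [Function.update_self]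
      · intro i hi
        rw [Function.update_of_ne (show i ≠ s + 1 by omega)]
        by_cases his : i = s
        · subst his
          rw [Function.update_self]
          exact ⟨hs1, by omega⟩
        · rw [Function.update_of_ne (show i + 1 ≠ s + 1 by omega)]
          exact hint i hi
      · intro i hi
        rw [Function.update_of_ne (show i + 1 ≠ s + 1 by omega)]
        exact hstrict i hi
      · rw [hvs, Phi_succ, abs_of_nonpos (by linarith)]
        rw [Function.update_self, Function.update_of_ne (show s ≠ s + 1 by omega)]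
        have h2 : Phi s (fun t => h (k t)) (fun t => h (Function.update p (s + 1) (m + 1) t)) =
            Phi s (fun t => h (k t)) (fun t => h (p t)) := by
          refine Phi_congr (fun i hi => rfl) (fun i hi => ?_)
          rw [Function.update_of_ne (show i ≠ s + 1 by omega)]
        rw [h2]
        linarith
    · push Not at h1
      by_cases h3 : h m < h (k (s + 1))
      · -- a new top
        refine ⟨s + 1, Function.update k (s + 2) (m + 1), Function.update p (s + 2) (m + 1),
          ?_, ?_, ?_, ?_, ?_⟩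
        · rw [Function.update_of_ne (by omega)]; exact hp0
        · rw [Function.update_self]
        · intro i hi
          rw [Function.update_of_ne (show i ≠ s + 2 by omega)]
          by_cases his : i = s + 1
          · subst his
            rw [Function.update_self, Function.update_self, hpm]
            exact ⟨by omega, le_rfl⟩
          · rw [Function.update_of_ne (show i + 1 ≠ s + 2 by omega),
              Function.update_of_ne (show i + 1 ≠ s + 2 by omega)]
            exact hint i (by omega)
        · intro i hi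
          rw [Function.update_of_ne (show i + 1 ≠ s + 2 by omega),
            Function.update_of_ne (show i + 1 ≠ s + 2 by omega)]
          by_cases his : i = s
          · subst his
            rw [Function.update_self, hpm]
            exact ⟨h3, h1⟩
          · rw [Function.update_of_ne (show i + 2 ≠ s + 2 by omega)]
            exact hstrict i (by omega)
        · rw [hvs, Phi_succ, Phi_succ, abs_of_nonneg (by linarith)]
          rw [Function.update_self, Function.update_self,
            Function.update_of_ne (show s + 1 ≠ s + 2 by omega),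
            Function.update_of_ne (show s + 1 ≠ s + 2 by omega),
            Function.update_of_ne (show s ≠ s + 2 by omega), hpm]
          have h2 : Phi s (fun t => h (Function.update k (s + 2) (m + 1) t))
              (fun t => h (Function.update p (s + 2) (m + 1) t)) =
              Phi s (fun t => h (k t)) (fun t => h (p t)) := by
            refine Phi_congr (fun i hi => ?_) (fun i hi => ?_)
            · rw [Function.update_of_ne (show i + 1 ≠ s + 2 by omega)]
            · rw [Function.update_of_ne (show i ≠ s + 2 by omega)]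
          rw [h2]
          linarith
      · push Not at h3
        -- the last top moves on
        refine ⟨s, Function.update k (s + 1) (m + 1), Function.update p (s + 1) (m + 1),
          ?_, ?_, ?_, ?_, ?_⟩
        · rw [Function.update_of_ne (by omega)]; exact hp0
        · rw [Function.update_self]
        · intro i hi
          rw [Function.update_of_ne (show i ≠ s + 1 by omega)]
          by_cases his : i = s
          · subst his
            rw [Function.update_self, Function.update_self]
            exact ⟨by omega, le_rfl⟩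
          · rw [Function.update_of_ne (show i + 1 ≠ s + 1 by omega),
              Function.update_of_ne (show i + 1 ≠ s + 1 by omega)]
            exact hint i (by omega)
        · intro i hi
          rw [Function.update_of_ne (show i + 1 ≠ s + 1 by omega),
            Function.update_of_ne (show i + 1 ≠ s + 1 by omega)]
          obtain ⟨h4, h5⟩ := hstrict i hi
          by_cases his : i + 1 = s
          · subst his
            rw [Function.update_self]
            exact ⟨h4, by linarith⟩
          · rw [Function.update_of_ne (show i + 2 ≠ s + 1 by omega)]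
            exact ⟨h4, h5⟩
        · rw [hvs, Phi_succ, abs_of_nonneg (by linarith)]
          rw [Function.update_self, Function.update_self,
            Function.update_of_ne (show s ≠ s + 1 by omega)]
          have h2 : Phi s (fun t => h (Function.update k (s + 1) (m + 1) t))
              (fun t => h (Function.update p (s + 1) (m + 1) t)) =
              Phi s (fun t => h (k t)) (fun t => h (p t)) := by
            refine Phi_congr (fun i hi => ?_) (fun i hi => ?_)
            · rw [Function.update_of_ne (show i + 1 ≠ s + 1 by omega)]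
            · rw [Function.update_of_ne (show i ≠ s + 1 by omega)]
          rw [h2]
          linarith

/-- A top with a lower vertex to its right is matched by a value of `g` to the left of it. -/
theorem top_left {m : ℕ} (g : ℕ → ℝ) {k p : ℕ} (hkp : k ≤ p) (hp : p ≤ m)
    (hlt : supAverage m g p < supAverage m g k) : ∃ q ≤ p, supAverage m g k ≤ g q := by
  obtain ⟨q, hq, hqmax⟩ := exists_max_image (range (p + 1)) g ⟨0, by simp⟩
  rw [mem_range] at hq
  refine ⟨q, by omega, ?_⟩
  have key : supAverage m g k ≤ max (supAverage m g p) (g q) := by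
    refine sup_le (fun r => ?_)
    by_contra hcon
    push Not at hcon
    obtain ⟨hc1, hc2⟩ := max_lt_iff.1 hcon
    have hall : ∀ j ≤ p, g j < average m g k r := fun j hj =>
      (hqmax j (mem_range.2 (by omega))).trans_lt hc2
    by_cases hr : p ≤ k + r
    · have key : average m g k r ≤ average m g p (k + r - p) := by
        refine mean_removed g (ball m k r) (ball m p (k + r - p)) ?_
          ⟨p, self_mem_ball _ hp⟩ _ rfl ?_
        · intro j hj
          rw [mem_ball] at hj ⊢
          omega
        · intro j hj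
          rw [mem_sdiff, mem_ball, mem_ball] at hj
          exact (hall j (by omega)).le
      exact absurd (key.trans (average_le_sup g _ hp)) (not_le.2 hc1)
    · have : average m g k r < average m g k r := by
        refine mean_lt g _ ⟨k, self_mem_ball r (hkp.trans hp)⟩ _ (fun j hj => ?_)
        rw [mem_ball] at hj
        exact hall j (by omega)
      exact lt_irrefl _ this
  exact (le_max_iff.1 key).resolve_left (not_le.2 hlt)

/-- A top with a lower vertex to its left is matched by a value of `g` to the right of it. -/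
theorem top_right {m : ℕ} (g : ℕ → ℝ) {k p : ℕ} (hpk : p ≤ k) (hk : k ≤ m)
    (hlt : supAverage m g p < supAverage m g k) :
    ∃ q, p ≤ q ∧ q ≤ m ∧ supAverage m g k ≤ g q := by
  obtain ⟨q, hq, hqmax⟩ := exists_max_image (Icc p m) g
    ⟨p, mem_Icc.2 ⟨le_rfl, hpk.trans hk⟩⟩
  rw [mem_Icc] at hq
  refine ⟨q, hq.1, hq.2, ?_⟩
  have key : supAverage m g k ≤ max (supAverage m g p) (g q) := by
    refine sup_le (fun r => ?_)
    by_contra hcon
    push Not at hcon
    obtain ⟨hc1, hc2⟩ := max_lt_iff.1 hcon
    refine absurd (move_left g (k := p) hk le_rfl hpk ?_) (not_le.2 hc1)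
    intro i j h1 h2 _ h3 _
    exact (hqmax j (mem_Icc.2 ⟨by omega, h3⟩)).trans_lt hc2
  exact (le_max_iff.1 key).resolve_left (not_le.2 hlt)

/-- Every top of the maximal function lying between two genuine turns is matched by a value
of `g` between these turns. -/
def Attached (m : ℕ) (g : ℕ → ℝ) : Prop :=
  ∀ a' a v b b' : ℕ, a' ≤ a → a ≤ v → v ≤ b → b ≤ b' → b' ≤ m →
    supAverage m g a < supAverage m g a' → supAverage m g a < supAverage m g v →
    supAverage m g b < supAverage m g v → supAverage m g b < supAverage m g b' →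
    ∃ q, a ≤ q ∧ q ≤ b ∧ supAverage m g v ≤ g q

/-- On at most six vertices all tops are matched. -/
theorem attached_small {m : ℕ} (hm : m ≤ 5) (g : ℕ → ℝ) : Attached m g := by
  intro a' a v b b' _ hav hvb hbb' hbm _ h1 h2 _
  have hav' : a < v := lt_of_le_of_ne hav (by rintro rfl; exact lt_irrefl _ h1)
  have hvb' : v < b := lt_of_le_of_ne hvb (by rintro rfl; exact lt_irrefl _ h2)
  obtain ⟨q, hq, hqmax⟩ := exists_max_image (Icc a b) g
    ⟨a, mem_Icc.2 ⟨le_rfl, hav.trans hvb⟩⟩
  rw [mem_Icc] at hq
  refine ⟨q, hq.1, hq.2, ?_⟩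
  have key : supAverage m g v ≤ max (max (supAverage m g a) (supAverage m g b)) (g q) := by
    refine sup_le (fun r => ?_)
    by_cases hr1 : v ≤ r
    · have hb : ball m v r = ball m a (v + r - a) := by
        ext j
        rw [mem_ball, mem_ball]
        omega
      have hb' : average m g v r = average m g a (v + r - a) := by
        unfold average
        rw [hb]
      rw [hb']
      exact ((average_le_sup g _ (by omega)).trans (le_max_left _ _)).trans (le_max_left _ _)
    · by_cases hr2 : m ≤ v + r
      · have hb : ball m v r = ball m b (b + r - v) := by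
          ext j
          rw [mem_ball, mem_ball]
          omega
        have hb' : average m g v r = average m g b (b + r - v) := by
          unfold average
          rw [hb]
        rw [hb']
        exact ((average_le_sup g _ (by omega)).trans (le_max_right _ _)).trans (le_max_left _ _)
      · refine le_trans ?_ (le_max_right _ _)
        refine mean_le g _ ⟨v, self_mem_ball r (by omega)⟩ _ (fun j hj => ?_)
        rw [mem_ball] at hj
        exact hqmax j (mem_Icc.2 (by omega))
  rcases le_max_iff.1 key with h | h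
  · rcases le_max_iff.1 h with h | h
    · exact absurd h (not_le.2 h1)
    · exact absurd h (not_le.2 h2)
  · exact h

/-- The inequality when all tops are matched. -/
theorem of_attached (m : ℕ) (g : ℕ → ℝ) (hA : Attached m g) :
    variation m (supAverage m g) ≤ (1 - 1 / ((m : ℝ) + 1)) * variation m g := by
  obtain ⟨s, k, p, hp0, hpm, hint, hstrict, hvar⟩ := decomposition (supAverage m g) m
  have hple : ∀ d ≤ s + 1, p (s + 1 - d) ≤ m := by
    intro d
    induction d with
    | zero => intro _; rw [Nat.sub_zero, hpm]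
    | succ d ihd =>
      intro hd
      obtain ⟨h1, h2⟩ := hint (s + 1 - (d + 1)) (by omega)
      rw [show s + 1 - (d + 1) + 1 = s + 1 - d by omega] at h1 h2
      exact (h1.trans h2).trans (ihd (by omega))
  have hple' : ∀ t ≤ s + 1, p t ≤ m := by
    intro t ht
    have := hple (s + 1 - t) (by omega)
    rwa [show s + 1 - (s + 1 - t) = t by omega] at this
  have hq : ∀ i ≤ s, ∃ q, p i ≤ q ∧ q ≤ p (i + 1) ∧ supAverage m g (k (i + 1)) ≤ g q := by
    intro i hi
    obtain ⟨hi1, hi2⟩ := hint i hi
    have hkm : k (i + 1) ≤ m := hi2.trans (hple' (i + 1) (by omega))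
    by_cases h0 : i = 0
    · by_cases hs0 : s = 0
      · subst h0
        subst hs0
        obtain ⟨q, hq, hqmax⟩ := exists_max_image (range (m + 1)) g ⟨0, by simp⟩
        rw [mem_range] at hq
        refine ⟨q, by omega, by rw [hpm]; omega, ?_⟩
        exact sup_le (fun r => average_le r hkm (fun j hj => hqmax j (mem_range.2 (by omega))))
      · subst h0
        obtain ⟨h1, _⟩ := hstrict 0 (by omega)
        obtain ⟨q, hq1, hq2⟩ := top_left g hi2 (hple' _ (by omega)) h1
        exact ⟨q, by omega, hq1, hq2⟩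
    · by_cases his : i = s
      · obtain ⟨_, h2⟩ := hstrict (i - 1) (by omega)
        rw [show i - 1 + 1 = i by omega, show i - 1 + 2 = i + 1 by omega] at h2
        obtain ⟨q, hq1, hq2, hq3⟩ := top_right g hi1 hkm h2
        refine ⟨q, hq1, ?_, hq3⟩
        rw [his, hpm]
        exact hq2
      · obtain ⟨h1, h2⟩ := hstrict (i - 1) (by omega)
        rw [show i - 1 + 1 = i by omega] at h1 h2
        rw [show i - 1 + 2 = i + 1 by omega] at h2
        obtain ⟨h3, h4⟩ := hstrict i (by omega)
        obtain ⟨_, h5⟩ := hint (i - 1) (by omega)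
        rw [show i - 1 + 1 = i by omega] at h5
        obtain ⟨h6, h7⟩ := hint (i + 1) (by omega)
        exact hA (k i) (p i) (k (i + 1)) (p (i + 1)) (k (i + 2)) h5 hi1 hi2 h6
          (h7.trans (hple' _ (by omega))) h1 h2 h3 h4
  choose! qf hqf using hq
  set q : ℕ → ℕ := fun t => if t = 0 then 0 else if t ≤ s + 1 then qf (t - 1) else m with hqdef
  have hq0 : q 0 = 0 := by simp [hqdef]
  have hqs : ∀ i ≤ s, q (i + 1) = qf i := by
    intro i hi
    simp only [hqdef]
    rw [if_neg (by omega), if_pos (by omega), show i + 1 - 1 = i by omega]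
  have hqm : q (s + 2) = m := by
    simp only [hqdef]
    rw [if_neg (by omega), if_neg (by omega)]
  have hgap : ∀ t ≤ s + 1, q t ≤ p t ∧ p t ≤ q (t + 1) := by
    intro t ht
    constructor
    · by_cases h0 : t = 0
      · rw [h0, hq0]; exact Nat.zero_le _
      · obtain ⟨t', rfl⟩ : ∃ t', t = t' + 1 := ⟨t - 1, by omega⟩
        rw [hqs t' (by omega)]
        exact (hqf t' (by omega)).2.1
    · by_cases h1 : t = s + 1
      · rw [h1, hpm]; exact hqm.ge
      · rw [hqs t (by omega)]
        exact (hqf t (by omega)).1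
  have ha : ∀ j ≤ s + 1, ∃ a, q j ≤ a ∧ a ≤ q (j + 1) ∧
      ∀ v, q j ≤ v → v ≤ q (j + 1) → g a ≤ g v := by
    intro j hj
    obtain ⟨a, ha, hamin⟩ := exists_min_image (Icc (q j) (q (j + 1))) g
      ⟨q j, mem_Icc.2 ⟨le_rfl, (hgap j hj).1.trans (hgap j hj).2⟩⟩
    rw [mem_Icc] at ha
    exact ⟨a, ha.1, ha.2, fun v hv1 hv2 => hamin v (mem_Icc.2 ⟨hv1, hv2⟩)⟩
  choose! af haf using ha
  have hmain := main_alternating m g (s + 1) q (fun j => supAverage m g (p j))
    (fun j => g (af j)) hq0 hqm (fun t ht => (hgap t ht).1.trans (hgap t ht).2)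
    (fun j hj => ⟨p j, (hgap j hj).1, (hgap j hj).2, le_rfl⟩)
    (fun j hj v hv1 hv2 => (haf j hj).2.2 v hv1 hv2)
  have hup : Phi (s + 1) (fun t => supAverage m g (k t)) (fun t => supAverage m g (p t)) ≤
      Phi (s + 1) (fun t => g (q t)) (fun t => supAverage m g (p t)) := by
    refine Phi_mono (fun i hi => ?_)
    rw [hqs i (by omega)]
    exact (hqf i (by omega)).2.2
  have hvg := Phi_le_variation (m := m) g q af (s + 1)
    (fun j hj => ⟨(haf j (by omega)).2.1, (haf (j + 1) (by omega)).1⟩)
    ((haf (s + 1) le_rfl).2.1.trans hqm.le)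
  have hm0 : (0 : ℝ) < (m : ℝ) + 1 := by positivity
  have hδ1 : 1 / ((m : ℝ) + 1) ≤ 1 := by
    rw [div_le_one hm0]
    have : (0 : ℝ) ≤ (m : ℝ) := Nat.cast_nonneg m
    linarith
  exact ((hvar.trans hup).trans hmain).trans
    (mul_le_mul_of_nonneg_left hvg (by linarith))

/-- The maximal function of a function with at most two turns satisfies the condition. -/
theorem attached_upDownUp {m k l : ℕ} {g : ℕ → ℝ} (hg : UpDownUp m k l g) : Attached m g := by
  intro a' a v b b' h1 h2 h3 h4 h5 h6 h7 h8 h9
  have hrec : ∀ u w, u ≤ w → w ≤ k → supAverage m g u ≤ supAverage m g w := fun u w huw hwk =>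
    record_left g (hwk.trans (hg.1.trans hg.2.1)) huw (fun j hj => hg.2.2.1 j w hj hwk)
  exfalso
  have hka : k < a := by
    by_contra hcon
    exact absurd (hrec a' a h1 (by omega)) (not_le.2 h6)
  have := quasiconvex hg hka.le h2 h3 (h4.trans h5)
  rcases le_max_iff.1 this with h | h
  · exact absurd h (not_le.2 h7)
  · exact absurd h (not_le.2 h8)

theorem downUpDown {m k l : ℕ} {g : ℕ → ℝ} (hg : DownUpDown m k l g) :
    variation m (supAverage m g) ≤ (1 - 1 / ((m : ℝ) + 1)) * variation m g := by
  have h := of_attached m _ (attached_upDownUp hg.reflect)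
  rw [variation_reflect] at h
  rw [← variation_reflect m (supAverage m g)]
  rwa [variation_congr (fun v hv => supAverage_reflect g hv)] at h

/-- The function `1` at the vertex `0` and `0` elsewhere shows that `1 - 1/n` is needed. -/
theorem sharp (m : ℕ) (C : ℝ) (hC : 0 ≤ C)
    (h : ∀ f : ℕ → ℝ, variation m (maximal m f) ≤ C * variation m f) :
    1 - 1 / ((m : ℝ) + 1) ≤ C := by
  have hm0 : (0 : ℝ) < (m : ℝ) + 1 := by positivity
  rcases Nat.eq_zero_or_pos m with hm | hm
  · subst hm
    simpa using hC
  set f : ℕ → ℝ := fun j => if j = 0 then 1 else 0 with hf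
  have hvar : variation m f = 1 := by
    unfold variation
    rw [sum_eq_single 0]
    · simp [hf]
    · intro b _ hb
      simp [hf, hb]
    · intro h0
      exact absurd (mem_range.2 hm) h0
  have h0 : 1 ≤ maximal m f 0 := by
    have := self_le_sup (fun j => |f j|) (Nat.zero_le m)
    simpa [hf, maximal] using this
  have hmle : maximal m f m ≤ 1 / ((m : ℝ) + 1) := by
    refine sup_le (fun r => ?_)
    by_cases hr : m ≤ r
    · have hb : ball m m r = range (m + 1) := by
        ext j
        rw [mem_ball, mem_range]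
        omega
      unfold average
      rw [hb, card_range, sum_eq_single 0]
      · simp [hf]
      · intro b _ hb
        simp [hf, hb]
      · intro h0
        exact absurd (mem_range.2 (Nat.succ_pos m)) h0
    · refine (mean_le _ _ ⟨m, self_mem_ball r le_rfl⟩ 0 (fun j hj => ?_)).trans (by positivity)
      rw [mem_ball] at hj
      have hj0 : j ≠ 0 := by omega
      simp [hf, hj0]
  have h1 := h f
  rw [hvar, mul_one] at h1
  have h2 : |maximal m f m - maximal m f 0| ≤ variation m (maximal m f) := by
    have := abs_sub_le_sum (maximal m f) 0 m (Nat.zero_le m)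
    unfold variation
    rwa [range_eq_Ico]
  have h3 := neg_abs_le (maximal m f m - maximal m f 0)
  linarith

/-- The middle part of the variation. -/
theorem seven_middle (x1 x2 x3 x4 x5 : ℝ) : ∃ c, c ≤ x2 ∧ c ≤ x3 ∧ c ≤ x4 ∧
    (x1 - c) + (x5 - c) ≤ |x2 - x1| + |x3 - x2| + |x4 - x3| + |x5 - x4| := by
  have a1 := neg_abs_le (x2 - x1)
  have a2 := neg_abs_le (x3 - x2)
  have a3 := neg_abs_le (x4 - x3)
  have b2 := le_abs_self (x3 - x2)
  have b3 := le_abs_self (x4 - x3)
  have b4 := le_abs_self (x5 - x4)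
  rcases le_total x2 x3 with h23 | h23
  · rcases le_total x2 x4 with h24 | h24
    · exact ⟨x2, le_rfl, h23, h24, by linarith⟩
    · exact ⟨x4, h24, by linarith, le_rfl, by linarith⟩
  · rcases le_total x3 x4 with h34 | h34
    · exact ⟨x3, h23, le_rfl, h34, by linarith⟩
    · exact ⟨x4, by linarith, h34, le_rfl, by linarith⟩

/-- One end of the path with seven vertices. -/
theorem seven_end {x0 x1 H0 H1 H2 H3 : ℝ} (h23 : H2 < H3) (h31 : H3 < x1) (e0 : x0 ≤ H0)
    (e01 : x0 + x1 ≤ 2 * H0) (e1 : x1 ≤ H1) (u1 : H1 ≤ max x0 x1)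
    (u0 : H0 ≤ max x0 x1 ∨ H0 ≤ H2) :
    (x0 ≤ x1 ∧ |H1 - H0| + H1 ≤ x1 + (x1 - x0) / 2) ∨
      (x1 < x0 ∧ |H1 - H0| + H1 ≤ x0) := by
  rcases le_or_gt x0 x1 with h | h
  · left
    rw [max_eq_right h] at u1 u0
    have hH0 : H0 ≤ x1 := by
      rcases u0 with h | h
      · exact h
      · linarith
    refine ⟨h, ?_⟩
    rcases abs_cases (H1 - H0) with ⟨h1, _⟩ | ⟨h1, _⟩ <;> rw [h1] <;> linarith
  · right
    rw [max_eq_left h.le] at u1 u0
    have hH0 : H0 ≤ x0 := by
      rcases u0 with h | h
      · exact h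
      · linarith
    refine ⟨h, ?_⟩
    rw [abs_of_nonpos (by linarith)]
    linarith

/-- The inequality of numbers for seven vertices and an unmatched top. -/
theorem seven_numbers {x0 x1 x2 x3 x4 x5 x6 H0 H1 H2 H3 H4 H5 H6 : ℝ}
    (f1 : 5 * H3 = x1 + x2 + x3 + x4 + x5) (f2 : x2 < H3) (f4 : x4 < H3)
    (g2 : H2 < H3) (g4 : H4 < H3)
    (l1 : x1 + x2 + x3 ≤ 3 * H2) (l2 : x3 + x4 + x5 ≤ 3 * H4)
    (l3 : x0 + x1 + x2 + x3 + x4 ≤ 5 * H2) (l4 : x2 + x3 + x4 + x5 + x6 ≤ 5 * H4)
    (e0 : x0 ≤ H0) (e01 : x0 + x1 ≤ 2 * H0) (e6 : x6 ≤ H6) (e56 : x6 + x5 ≤ 2 * H6)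
    (e1 : x1 ≤ H1) (e5 : x5 ≤ H5) (u1 : H1 ≤ max x0 x1) (u5 : H5 ≤ max x6 x5)
    (u0 : H0 ≤ max x0 x1 ∨ H0 ≤ H2) (u6 : H6 ≤ max x6 x5 ∨ H6 ≤ H4) :
    |H1 - H0| + |H2 - H1| + |H3 - H2| + |H4 - H3| + |H5 - H4| + |H6 - H5| ≤
      (1 - 1 / 7) *
        (|x1 - x0| + |x2 - x1| + |x3 - x2| + |x4 - x3| + |x5 - x4| + |x6 - x5|) := by
  have k1 : H3 < x1 := by linarith
  have k5 : H3 < x5 := by linarith
  have k05 : x0 < x5 := by linarith
  have k61 : x6 < x1 := by linarith
  obtain ⟨c, c2, c3, c4, hc⟩ := seven_middle x1 x2 x3 x4 x5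
  have hL := seven_end g2 k1 e0 e01 e1 u1 u0
  have hR := seven_end g4 k5 e6 e56 e5 u5 u6
  rw [abs_sub_comm H5 H6] at hR
  rw [abs_of_nonpos (show H2 - H1 ≤ 0 by linarith), abs_of_nonneg (show 0 ≤ H3 - H2 by linarith),
    abs_of_nonpos (show H4 - H3 ≤ 0 by linarith), abs_of_nonneg (show 0 ≤ H5 - H4 by linarith)]
  rcases hL with ⟨hL1, hL2⟩ | ⟨hL1, hL2⟩
  · have hx01 : x1 - x0 ≤ |x1 - x0| := le_abs_self _
    rcases hR with ⟨hR1, hR2⟩ | ⟨hR1, hR2⟩
    · have hx56 : x5 - x6 ≤ |x6 - x5| := by
        rw [abs_sub_comm]; exact le_abs_self _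
      linarith
    · have hx56 : x6 - x5 ≤ |x6 - x5| := le_abs_self _
      linarith
  · have hx01 : x0 - x1 ≤ |x1 - x0| := by
      rw [abs_sub_comm]; exact le_abs_self _
    rcases hR with ⟨hR1, hR2⟩ | ⟨hR1, hR2⟩
    · have hx56 : x5 - x6 ≤ |x6 - x5| := by
        rw [abs_sub_comm]; exact le_abs_self _
      linarith
    · exfalso
      linarith

/-- Seven vertices. -/
theorem seven (g : ℕ → ℝ) :
    variation 6 (supAverage 6 g) ≤ (1 - 1 / 7) * variation 6 g := by
  by_cases hA : Attached 6 g
  · have := of_attached 6 g hA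
    norm_num at this ⊢
    exact this
  unfold Attached at hA
  push Not at hA
  obtain ⟨a', a, v, b, b', ha', hav, hvb, hbb', hb', h0, h1, h2, h9, hno⟩ := hA
  have haa : a' < a := lt_of_le_of_ne ha' (by rintro rfl; exact lt_irrefl _ h0)
  have hbb : b < b' := lt_of_le_of_ne hbb' (by rintro rfl; exact lt_irrefl _ h9)
  have hav' : a < v := lt_of_le_of_ne hav (by rintro rfl; exact lt_irrefl _ h1)
  have hvb' : v < b := lt_of_le_of_ne hvb (by rintro rfl; exact lt_irrefl _ h2)
  have hgap : ∀ j, a ≤ j → j ≤ b → g j < supAverage 6 g v := hno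
  obtain ⟨q, hq, hqmax⟩ := exists_max_image (Icc a b) g
    ⟨a, mem_Icc.2 ⟨le_rfl, hav.trans hvb⟩⟩
  rw [mem_Icc] at hq
  have hqlt := hgap q hq.1 hq.2
  have key : supAverage 6 g v ≤ max (max (max (supAverage 6 g a) (supAverage 6 g b)) (g q))
      (average 6 g 3 2) := by
    refine sup_le (fun r => ?_)
    by_cases hr1 : v ≤ r
    · have hb : ball 6 v r = ball 6 a (v + r - a) := by
        ext j
        rw [mem_ball, mem_ball]
        omega
      have hb' : average 6 g v r = average 6 g a (v + r - a) := by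
        unfold average
        rw [hb]
      rw [hb']
      exact (((average_le_sup g _ (by omega)).trans (le_max_left _ _)).trans
        (le_max_left _ _)).trans (le_max_left _ _)
    · by_cases hr2 : 6 ≤ v + r
      · have hb : ball 6 v r = ball 6 b (b + r - v) := by
          ext j
          rw [mem_ball, mem_ball]
          omega
        have hb' : average 6 g v r = average 6 g b (b + r - v) := by
          unfold average
          rw [hb]
        rw [hb']
        exact (((average_le_sup g _ (by omega)).trans (le_max_right _ _)).trans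
          (le_max_left _ _)).trans (le_max_left _ _)
      · by_cases hr3 : r ≤ 1
        · refine le_trans ?_ (le_max_left _ _)
          refine le_trans ?_ (le_max_right _ _)
          refine mean_le g _ ⟨v, self_mem_ball r (by omega)⟩ _ (fun j hj => ?_)
          rw [mem_ball] at hj
          exact hqmax j (mem_Icc.2 (by omega))
        · have hv3 : v = 3 := by omega
          have hr3 : r = 2 := by omega
          rw [hv3, hr3]
          exact le_max_right _ _
  have hKle : supAverage 6 g v ≤ average 6 g 3 2 := by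
    rcases le_max_iff.1 key with h | h
    · rcases le_max_iff.1 h with h | h
      · rcases le_max_iff.1 h with h | h
        · exact absurd h (not_le.2 h1)
        · exact absurd h (not_le.2 h2)
      · exact absurd h (not_le.2 hqlt)
    · exact h
  have e32 : average 6 g 3 2 = (g 1 + g 2 + g 3 + g 4 + g 5) / 5 := by
    have hb : ball 6 3 2 = {1, 2, 3, 4, 5} := by decide
    unfold average
    rw [hb]
    norm_num
    ring
  have e21 : average 6 g 2 1 = (g 1 + g 2 + g 3) / 3 := by
    have hb : ball 6 2 1 = {1, 2, 3} := by decide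
    unfold average
    rw [hb]
    norm_num
    ring
  have e41 : average 6 g 4 1 = (g 3 + g 4 + g 5) / 3 := by
    have hb : ball 6 4 1 = {3, 4, 5} := by decide
    unfold average
    rw [hb]
    norm_num
    ring
  have e22 : average 6 g 2 2 = (g 0 + g 1 + g 2 + g 3 + g 4) / 5 := by
    have hb : ball 6 2 2 = {0, 1, 2, 3, 4} := by decide
    unfold average
    rw [hb]
    norm_num
    ring
  have e42 : average 6 g 4 2 = (g 2 + g 3 + g 4 + g 5 + g 6) / 5 := by
    have hb : ball 6 4 2 = {2, 3, 4, 5, 6} := by decide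
    unfold average
    rw [hb]
    norm_num
    ring
  have e01 : average 6 g 0 1 = (g 0 + g 1) / 2 := by
    have hb : ball 6 0 1 = {0, 1} := by decide
    unfold average
    rw [hb]
    norm_num
  have e61 : average 6 g 6 1 = (g 5 + g 6) / 2 := by
    have hb : ball 6 6 1 = {5, 6} := by decide
    unfold average
    rw [hb]
    norm_num
  have hv3 : v = 3 := by
    by_contra hv3
    have key2 : supAverage 6 g v ≤ max (max (supAverage 6 g a) (supAverage 6 g b)) (g q) := by
      refine sup_le (fun r => ?_)
      by_cases hr1 : v ≤ r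
      · have hb : ball 6 v r = ball 6 a (v + r - a) := by
          ext j
          rw [mem_ball, mem_ball]
          omega
        have hb' : average 6 g v r = average 6 g a (v + r - a) := by
          unfold average
          rw [hb]
        rw [hb']
        exact ((average_le_sup g _ (by omega)).trans (le_max_left _ _)).trans (le_max_left _ _)
      · by_cases hr2 : 6 ≤ v + r
        · have hb : ball 6 v r = ball 6 b (b + r - v) := by
            ext j
            rw [mem_ball, mem_ball]
            omega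
          have hb' : average 6 g v r = average 6 g b (b + r - v) := by
            unfold average
            rw [hb]
          rw [hb']
          exact ((average_le_sup g _ (by omega)).trans (le_max_right _ _)).trans
            (le_max_left _ _)
        · refine le_trans ?_ (le_max_right _ _)
          refine mean_le g _ ⟨v, self_mem_ball r (by omega)⟩ _ (fun j hj => ?_)
          rw [mem_ball] at hj
          exact hqmax j (mem_Icc.2 (by omega))
    rcases le_max_iff.1 key2 with h | h
    · rcases le_max_iff.1 h with h | h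
      · exact absurd h (not_le.2 h1)
      · exact absurd h (not_le.2 h2)
    · exact absurd h (not_le.2 hqlt)
  subst hv3
  have s32 := average_le_sup (m := 6) g (v := 3) 2 (by omega)
  have s21 := average_le_sup (m := 6) g (v := 2) 1 (by omega)
  have s41 := average_le_sup (m := 6) g (v := 4) 1 (by omega)
  have s22 := average_le_sup (m := 6) g (v := 2) 2 (by omega)
  have s42 := average_le_sup (m := 6) g (v := 4) 2 (by omega)
  have s01 := average_le_sup (m := 6) g (v := 0) 1 (by omega)
  have s61 := average_le_sup (m := 6) g (v := 6) 1 (by omega)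
  rw [e32] at s32 hKle
  rw [e21] at s21
  rw [e41] at s41
  rw [e22] at s22
  rw [e42] at s42
  rw [e01] at s01
  rw [e61] at s61
  have t0 := self_le_sup (m := 6) g (v := 0) (by omega)
  have t1 := self_le_sup (m := 6) g (v := 1) (by omega)
  have t2 := self_le_sup (m := 6) g (v := 2) (by omega)
  have t4 := self_le_sup (m := 6) g (v := 4) (by omega)
  have t5 := self_le_sup (m := 6) g (v := 5) (by omega)
  have t6 := self_le_sup (m := 6) g (v := 6) (by omega)
  have f3 := hgap 3 (by omega) (by omega)
  have f2 := hgap 2 (by omega) (by omega)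
  have f4 := hgap 4 (by omega) (by omega)
  have ha2 : a = 2 := by
    by_contra hcon
    have f1 := hgap 1 (by omega) (by omega)
    by_cases hb4 : b = 4
    · subst hb4
      linarith
    · have f5 := hgap 5 (by omega) (by omega)
      linarith
  have hb4 : b = 4 := by
    by_contra hcon
    have f5 := hgap 5 (by omega) (by omega)
    subst ha2
    linarith
  subst ha2
  subst hb4
  have htop1 : ∀ k, k ≤ 1 → supAverage 6 g 2 < supAverage 6 g k →
      supAverage 6 g k ≤ max (g 0) (g 1) := by
    intro k hk hlt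
    obtain ⟨j, hj, hj2⟩ := top_left g (k := k) (p := 2) (by omega) (by omega) hlt
    interval_cases j
    · exact hj2.trans (le_max_left _ _)
    · exact hj2.trans (le_max_right _ _)
    · linarith
  have htop5 : ∀ k, 5 ≤ k → k ≤ 6 → supAverage 6 g 4 < supAverage 6 g k →
      supAverage 6 g k ≤ max (g 6) (g 5) := by
    intro k hk hk6 hlt
    obtain ⟨j, hj, hj6, hj2⟩ := top_right g (k := k) (p := 4) (by omega) hk6 hlt
    interval_cases j
    · linarith
    · exact hj2.trans (le_max_right _ _)
    · exact hj2.trans (le_max_left _ _)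
  have u1 : supAverage 6 g 1 ≤ max (g 0) (g 1) := htop1 1 le_rfl (by linarith)
  have u5 : supAverage 6 g 5 ≤ max (g 6) (g 5) := htop5 5 le_rfl (by omega) (by linarith)
  have u0 : supAverage 6 g 0 ≤ max (g 0) (g 1) ∨ supAverage 6 g 0 ≤ supAverage 6 g 2 := by
    by_cases h : supAverage 6 g 2 < supAverage 6 g 0
    · exact Or.inl (htop1 0 (by omega) h)
    · exact Or.inr (not_lt.1 h)
  have u6 : supAverage 6 g 6 ≤ max (g 6) (g 5) ∨ supAverage 6 g 6 ≤ supAverage 6 g 4 := by
    by_cases h : supAverage 6 g 4 < supAverage 6 g 6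
    · exact Or.inl (htop5 6 (by omega) le_rfl h)
    · exact Or.inr (not_lt.1 h)
  have hfinal := seven_numbers (x0 := g 0) (x1 := g 1) (x2 := g 2) (x3 := g 3) (x4 := g 4)
    (x5 := g 5) (x6 := g 6) (H0 := supAverage 6 g 0) (H1 := supAverage 6 g 1)
    (H2 := supAverage 6 g 2) (H3 := supAverage 6 g 3) (H4 := supAverage 6 g 4)
    (H5 := supAverage 6 g 5) (H6 := supAverage 6 g 6) (by linarith) f2 f4 h1 h2
    (by linarith) (by linarith) (by linarith) (by linarith) t0 (by linarith) t6 (by linarith)
    t1 t5 u1 u5 u0 u6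
  have hsum : ∀ w : ℕ → ℝ, variation 6 w = |w 1 - w 0| + |w 2 - w 1| + |w 3 - w 2| +
      |w 4 - w 3| + |w 5 - w 4| + |w 6 - w 5| := by
    intro w
    unfold variation
    simp [sum_range_succ]
  rw [hsum, hsum]
  exact hfinal

/-- On the path with `n = m + 1` vertices: the sharp constant is `1 - 1/n` for `n ≤ 7`; for all `n`
the inequality with the constant `1 - 1/n` holds for every `f` such that the tops of the maximal
function of `f` are matched, and for every `f` such that `|f|` changes its monotonicity at most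
twice. -/
theorem result :
    (∀ m : ℕ, m ≤ 6 →
      IsLeast {C : ℝ | 0 ≤ C ∧ ∀ f : ℕ → ℝ, variation m (maximal m f) ≤ C * variation m f}
        (1 - 1 / ((m : ℝ) + 1))) ∧
    (∀ (m : ℕ) (f : ℕ → ℝ), Attached m (fun j => |f j|) →
      variation m (maximal m f) ≤ (1 - 1 / ((m : ℝ) + 1)) * variation m f) ∧
    (∀ (m : ℕ) (f : ℕ → ℝ), AtMostTwoChanges m (fun j => |f j|) →
      variation m (maximal m f) ≤ (1 - 1 / ((m : ℝ) + 1)) * variation m f) := by
  have hδ : ∀ m : ℕ, 0 ≤ 1 - 1 / ((m : ℝ) + 1) := by
    intro m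
    have hm0 : (0 : ℝ) < (m : ℝ) + 1 := by positivity
    have : 1 / ((m : ℝ) + 1) ≤ 1 := by
      rw [div_le_one hm0]
      have : (0 : ℝ) ≤ (m : ℝ) := Nat.cast_nonneg m
      linarith
    linarith
  have hA : ∀ (m : ℕ) (f : ℕ → ℝ), Attached m (fun j => |f j|) →
      variation m (maximal m f) ≤ (1 - 1 / ((m : ℝ) + 1)) * variation m f := fun m f hf =>
    (of_attached m (fun j => |f j|) hf).trans
      (mul_le_mul_of_nonneg_left (variation_abs_le m f) (hδ m))
  have hS : ∀ m : ℕ, m ≤ 6 → ∀ f : ℕ → ℝ,
      variation m (maximal m f) ≤ (1 - 1 / ((m : ℝ) + 1)) * variation m f := by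
    intro m hm f
    by_cases h5 : m ≤ 5
    · exact hA m f (attached_small h5 _)
    · have h6 : m = 6 := by omega
      subst h6
      have h7 : (1 : ℝ) - 1 / (((6 : ℕ) : ℝ) + 1) = 1 - 1 / 7 := by norm_num
      have h8 := hδ 6
      rw [h7] at h8 ⊢
      exact (seven (fun j => |f j|)).trans
        (mul_le_mul_of_nonneg_left (variation_abs_le 6 f) h8)
  refine ⟨fun m hm => ⟨⟨hδ m, hS m hm⟩, ?_⟩, hA, ?_⟩
  · rintro C ⟨hC0, hC⟩
    exact sharp m C hC0 hC
  · rintro m f ⟨k, l, h | h⟩
    · exact hA m f (attached_upDownUp h)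
    · exact (downUpDown h).trans (mul_le_mul_of_nonneg_left (variation_abs_le m f) (hδ m))

end Pool.Agent.Results.MP_b61ad0_an.MatchedTops
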